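import Pool.Agent.Lib.MP_c534e4_co.H64.Mis
import Pool.Agent.Lib.MP_c534e4_co.Stretch

/-! The stretching contradiction (helper64). -/

set_option autoImplicit false

namespace KS

open MeasureTheory Set
open scoped ENNReal
open Rigid (cf)

variable {Q : Type} [Fintype Q] [PartialOrder Q] [BoundedOrder Q]

/-- constants of part II -/
noncomputable def ch (C : ℝ) : ℝ := 8 * C * (1 + 2 * cg C)

noncomputable def cL (C : ℝ) : ℝ :=
  1 + 2 * cg C + 200 * C + 16 * ch C * (192 * cf C) + 192 * cf C + 12 * (20 * (1 + C)) * ch C ^ 2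

theorem cf_pos (C : ℝ) (hC : 1 ≤ C) : 0 < cf C := by
  unfold cf
  positivity

theorem cg_pos (C : ℝ) (hC : 1 ≤ C) : 1 ≤ cg C := by
  have := cg_ge C hC
  linarith

theorem ch_ge (C : ℝ) (hC : 1 ≤ C) : 8 ≤ ch C := by
  unfold ch
  have := cg_pos C hC
  nlinarith

theorem L_facts (C G f h L : ℝ) (hC : 1 ≤ C) (hG : 1 ≤ G) (hf : 0 < f) (hh : 8 ≤ h)
    (hLdef : L = 1 + 2 * G + 200 * C + 16 * h * (192 * f) + 192 * f +
      12 * (20 * (1 + C)) * h ^ 2) :
    1 + 2 * G ≤ L ∧ 200 * C ≤ L ∧ 16 * h * (192 * f) ≤ L ∧ 192 * f ≤ L ∧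
    12 * (20 * (1 + C)) * h ^ 2 ≤ L ∧ 1 ≤ L ∧ L ≤ L ^ 2 ∧ 64 * C * L ≤ L ^ 2 ∧ h < L ^ 2 := by
  have t1 : 0 < 16 * h * (192 * f) := by positivity
  have t2 : 0 < 12 * (20 * (1 + C)) * h ^ 2 := by positivity
  have L1 : 1 + 2 * G ≤ L := by linarith
  have L2 : 200 * C ≤ L := by linarith
  have L3 : 16 * h * (192 * f) ≤ L := by linarith
  have L4 : 192 * f ≤ L := by linarith
  have L5 : 12 * (20 * (1 + C)) * h ^ 2 ≤ L := by linarith
  have L0 : 1 ≤ L := by linarith
  clear hLdef
  have LL : L ≤ L ^ 2 := by nlinarith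
  refine ⟨L1, L2, L3, L4, L5, L0, LL, by nlinarith, ?_⟩
  have h1 : h ≤ h ^ 2 := by nlinarith
  have h2 : h ^ 2 < 12 * (20 * (1 + C)) * h ^ 2 := by
    have : 0 < h ^ 2 := by positivity
    nlinarith
  linarith

theorem num1 (C G L V b t : ℝ) (hC : 1 ≤ C) (h1 : 1 + 2 * G ≤ L) (h2 : 200 * C ≤ L) (hL : 1 ≤ L)
    (hb : b ≤ G)
    (hV : V ≤ C * (1 + (b + L ^ 2 + 32 * C * L + G))) (ht : 16 * C * L ≤ t) :
    V ≤ 1 / 16 * t ^ 2 := by
  have hv2 : V ≤ C * (3 * L ^ 2) := by
    refine hV.trans ?_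
    apply mul_le_mul_of_nonneg_left _ (by linarith)
    have q1 : 32 * C * L ≤ L ^ 2 := by nlinarith
    have q2 : L ≤ L ^ 2 := by nlinarith
    linarith
  have q3 : (16 * C * L) ^ 2 ≤ t ^ 2 := pow_le_pow_left₀ (by positivity) ht 2
  have q4 : C * (3 * L ^ 2) ≤ 1 / 16 * (16 * C * L) ^ 2 := by
    have : C ≤ C ^ 2 := by nlinarith
    have q5 : C * L ^ 2 ≤ C ^ 2 * L ^ 2 := mul_le_mul_of_nonneg_right this (by positivity)
    nlinarith
  linarith

theorem num2 (C G V : ℝ) (hC : 1 ≤ C) (hG : 1 ≤ G) (hV : V ≤ C * (1 + 2 * G)) :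
    V ≤ 1 / 16 * (4 * C * (1 + 2 * G)) ^ 2 := by
  have q1 : 1 ≤ C * (1 + 2 * G) := by nlinarith
  have q2 : 1 / 16 * (4 * C * (1 + 2 * G)) ^ 2 = (C * (1 + 2 * G)) ^ 2 := by
    ring
  rw [q2]
  nlinarith

theorem num3 (C V t : ℝ) (hC : 1 ≤ C) (ht : 112 * C ≤ t) (hV : V ≤ C * (7 * t)) :
    V ≤ 1 / 16 * t ^ 2 := by
  nlinarith

open Classical in
theorem stretch_contra (C : ℝ) (hr : Rigid (ks Q) C) (U : Finset Q)
    (hU : ∀ a b, a ≤ b → a ∈ U → b ∈ U) (y z y₀ : Q) (hy : y ∉ U) (hz : z ∈ U) (hy₀ : y₀ ∉ U)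
    (hbot : ⊥ ∉ U) (b : ℝ) (hb0 : 0 < b) (hb : b ≤ cg C)
    (hzM1 : b + cL C ^ 2 + 32 * C * cL C < M (ks Q) z y)
    (hzM2 : M (ks Q) z y ≤ b + cL C ^ 2 + 32 * C * cL C + cg C)
    (hM0 : 0 < M (ks Q) z y₀) (hM1 : M (ks Q) z y₀ ≤ 2 * cg C)
    (htopM : b + 3 * cL C ^ 2 + 64 * C * cL C ≤ M (ks Q) ⊤ y)
    (hcnt : ((U.filter fun x => b + cL C ^ 2 + 64 * C * cL C < M (ks Q) x y ∧
        M (ks Q) x y ≤ b + 2 * cL C ^ 2 + 64 * C * cL C).card : ℝ) -
      ((U.filter fun x => b < M (ks Q) x y ∧ M (ks Q) x y ≤ b + cL C ^ 2).card : ℝ) ≤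
      cL C ^ 2 / (8 * ch C))
    (hcnt2 : ((U.filter fun x => b + cL C ^ 2 + 64 * C * cL C < M (ks Q) x y ∧
        M (ks Q) x y ≤ b + 2 * cL C ^ 2 + 64 * C * cL C).card : ℝ) ≤
      2 * (20 * (1 + C)) * cL C ^ 2) : False := by
  have hC := hr.one_le
  have hG := cg_pos C hC
  have hf := cf_pos C hC
  have hh := ch_ge C hC
  have hhdef : ch C = 8 * C * (1 + 2 * cg C) := rfl
  have hLdef : cL C = 1 + 2 * cg C + 200 * C + 16 * ch C * (192 * cf C) + 192 * cf C +
    12 * (20 * (1 + C)) * ch C ^ 2 := rfl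
  set G := cg C with hGd
  set f := cf C with hfd
  set h := ch C with hhd
  set L := cL C with hLd
  obtain ⟨L1, L2, L3, L4, L5, L0, LL, hml, hhl⟩ := L_facts C G f h L hC hG hf hh hLdef
  have Lp : 0 < L := by linarith
  have hprob : IsProbabilityMeasure (ks Q) := hr.isKS.prob
  set l := L ^ 2 with hl
  set m := 64 * C * L with hm
  have hlp : 0 < l := by positivity
  have hmp : 0 < m := by positivity
  obtain ⟨ψ, J, hψm, hJm, hψmono, hψmap, hψge, hψ1, hψ2, hψ3, hJ⟩ :=
    stretch_map b l m h hlp hmp.le (by linarith) hhl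
  set K1 := 4 * C * (1 + 2 * G) with hK1
  have hK1h : h = 2 * K1 := by
    rw [hhdef, hK1]
    ring
  set κ := 96 * f * L with hκ
  have hκp : 0 < κ := by positivity
  -- the events
  set A : Set (Q → ℝ) := {S | (b + l ≤ D z y S ∧ D z y S ≤ b + l + m) ∧
    M (ks Q) z y₀ - K1 ≤ D z y₀ S ∧ b + 2 * l + m ≤ D ⊤ y S ∧
    (mis (ks Q) y b S < κ ∧ mis (ks Q) y (b + l) S < κ) ∧
    (mis (ks Q) y (b + l + m) S < κ ∧ mis (ks Q) y (b + 2 * l + m) S < κ)} with hA
  set B : Set (Q → ℝ) := {S | M (ks Q) z y₀ - K1 + h ≤ D z y₀ S} with hB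
  have hAm : MeasurableSet A := by
    rw [hA]
    refine MeasurableSet.inter (MeasurableSet.inter ?_ ?_) (MeasurableSet.inter ?_
      (MeasurableSet.inter ?_ (MeasurableSet.inter (MeasurableSet.inter ?_ ?_)
        (MeasurableSet.inter ?_ ?_))))
    · exact measurableSet_le measurable_const (measurable_D z y)
    · exact measurableSet_le (measurable_D z y) measurable_const
    · exact measurableSet_le measurable_const (measurable_D z y₀)
    · exact measurableSet_le measurable_const (measurable_D ⊤ y)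
    · exact measurableSet_lt (measurable_mis y b) measurable_const
    · exact measurableSet_lt (measurable_mis y _) measurable_const
    · exact measurableSet_lt (measurable_mis y _) measurable_const
    · exact measurableSet_lt (measurable_mis y _) measurable_const
  have hBm : MeasurableSet B := measurableSet_le measurable_const (measurable_D z y₀)
  have hmispin : ∀ (u : ℝ) (S : Q → ℝ), mis (ks Q) y u (pin y 0 S) = mis (ks Q) y u S := by
    intro u S
    unfold mis
    simp only [D_pin]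
  -- probability of A
  have hPA : 1 - 5 / 16 ≤ (ks Q).real {S | pin y 0 S ∈ A} := by
    apply real_ge_of_compl _ (({S | m / 2 - G ≤ |D z y S - M (ks Q) z y|} ∪
      ({S | K1 ≤ |D z y₀ S - M (ks Q) z y₀|} ∪
      {S | M (ks Q) ⊤ y - (b + 2 * l + m) ≤ |D ⊤ y S - M (ks Q) ⊤ y|})) ∪
      (({S | κ ≤ mis (ks Q) y b S} ∪ {S | κ ≤ mis (ks Q) y (b + l) S}) ∪
      ({S | κ ≤ mis (ks Q) y (b + l + m) S} ∪ {S | κ ≤ mis (ks Q) y (b + 2 * l + m) S})))
    · intro S hS
      by_contra hn
      simp only [mem_union, mem_ofPred_eq, not_or, not_le] at hn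
      obtain ⟨⟨h1, h2, h3⟩, ⟨h4, h5⟩, h6, h7⟩ := hn
      apply hS
      show pin y 0 S ∈ A
      rw [hA]
      simp only [mem_ofPred_eq, D_pin, hmispin]
      rw [abs_lt] at h1 h2 h3
      refine ⟨⟨?_, ?_⟩, ?_, ?_, ⟨h4, h5⟩, h6, h7⟩
      · have e : m / 2 = 32 * C * L := by rw [hm]; ring
        linarith [h1.1]
      · have e : m / 2 = 32 * C * L := by rw [hm]; ring
        linarith [h1.2]
      · linarith [h2.1]
      · linarith [h3.1]
    · have p1 : (ks Q).real {S | m / 2 - G ≤ |D z y S - M (ks Q) z y|} ≤ 1 / 16 := by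
        have e : m / 2 = 32 * C * L := by rw [hm]; ring
        have e1 : 16 * C * L ≤ m / 2 - G := by
          rw [e]
          have : 1 * L ≤ C * L := mul_le_mul_of_nonneg_right hC Lp.le
          linarith
        have hpos : 0 < m / 2 - G := lt_of_lt_of_le (by positivity) e1
        refine (hr.isKS.cheb z y _ hpos).trans ?_
        rw [div_le_iff₀ (by positivity)]
        have hv := hr.V_le z y
        rw [abs_of_pos (by linarith [hzM1, (by positivity : 0 < 32 * C * L)])] at hv
        refine num1 C G L _ b _ hC L1 L2 L0 hb (hv.trans ?_) e1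
        apply mul_le_mul_of_nonneg_left _ (by linarith)
        linarith
      have p2 : (ks Q).real {S | K1 ≤ |D z y₀ S - M (ks Q) z y₀|} ≤ 1 / 16 := by
        refine (hr.isKS.cheb z y₀ K1 (by positivity)).trans ?_
        rw [div_le_iff₀ (by positivity)]
        have hv := hr.V_le z y₀
        rw [abs_of_pos hM0] at hv
        refine num2 C G _ hC hG (hv.trans ?_)
        apply mul_le_mul_of_nonneg_left _ (by linarith)
        linarith
      have p3 : (ks Q).real {S | M (ks Q) ⊤ y - (b + 2 * l + m) ≤ |D ⊤ y S - M (ks Q) ⊤ y|} ≤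
          1 / 16 := by
        set t := M (ks Q) ⊤ y - (b + 2 * l + m) with ht
        have ht0 : l ≤ t := by
          rw [ht]
          linarith
        have htp : 0 < t := by linarith
        refine (hr.isKS.cheb ⊤ y t htp).trans ?_
        rw [div_le_iff₀ (by positivity)]
        have hv := hr.V_le ⊤ y
        rw [abs_of_pos (by linarith)] at hv
        have q0 : G ≤ l := by linarith
        have q1 : 1 + M (ks Q) ⊤ y ≤ 7 * t := by
          have : M (ks Q) ⊤ y = t + (b + 2 * l + m) := by rw [ht]; ring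
          rw [this]
          linarith
        have hv2 : V (ks Q) ⊤ y ≤ C * (7 * t) := by
          refine hv.trans ?_
          apply mul_le_mul_of_nonneg_left q1 (by linarith)
        have q2 : 112 * C ≤ t := by linarith
        exact num3 C _ t hC q2 hv2
      have hbb : ∀ u : ℝ, 0 ≤ u → u ≤ b + 2 * l + m →
          (ks Q).real {S | κ ≤ mis (ks Q) y u S} ≤ 1 / 32 := by
        intro u hu0 hu
        refine (mis_markov y u κ hκp).trans ?_
        have hfl := hr.fluct y u (3 * L) (by linarith) (by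
          rw [abs_of_nonneg hu0]
          have e1 : (3 * L) ^ 2 = 9 * l := by rw [hl]; ring
          rw [e1]
          linarith)
        rw [div_le_iff₀ hκp]
        refine hfl.trans (le_of_eq ?_)
        rw [hκ, ← hfd]
        ring
      have p4 := hbb b hb0.le (by linarith)
      have p5 := hbb (b + l) (by linarith) (by linarith)
      have p6 := hbb (b + l + m) (by linarith) (by linarith)
      have p7 := hbb (b + 2 * l + m) (by linarith) le_rfl
      refine (measureReal_union_le _ _).trans ?_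
      have q1 := (measureReal_union_le (μ := ks Q) {S | m / 2 - G ≤ |D z y S - M (ks Q) z y|}
        ({S | K1 ≤ |D z y₀ S - M (ks Q) z y₀|} ∪
        {S | M (ks Q) ⊤ y - (b + 2 * l + m) ≤ |D ⊤ y S - M (ks Q) ⊤ y|}))
      have q2 := (measureReal_union_le (μ := ks Q) {S | K1 ≤ |D z y₀ S - M (ks Q) z y₀|}
        {S | M (ks Q) ⊤ y - (b + 2 * l + m) ≤ |D ⊤ y S - M (ks Q) ⊤ y|})
      have q3 := (measureReal_union_le (μ := ks Q)
        ({S | κ ≤ mis (ks Q) y b S} ∪ {S | κ ≤ mis (ks Q) y (b + l) S})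
        ({S | κ ≤ mis (ks Q) y (b + l + m) S} ∪ {S | κ ≤ mis (ks Q) y (b + 2 * l + m) S}))
      have q4 := (measureReal_union_le (μ := ks Q) {S | κ ≤ mis (ks Q) y b S}
        {S | κ ≤ mis (ks Q) y (b + l) S})
      have q5 := (measureReal_union_le (μ := ks Q) {S | κ ≤ mis (ks Q) y (b + l + m) S}
        {S | κ ≤ mis (ks Q) y (b + 2 * l + m) S})
      linarith
  -- the transformation
  have key := ks_transform (Q := Q) y U hy ψ J hψm hJm hψmap A B hAm hBm (ENNReal.ofReal (1 / 2)) (by
    intro S hSA hSy hSm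
    have hDy : ∀ x, D x y S = S x := by
      intro x
      unfold D
      rw [hSy, sub_zero]
    rw [hA] at hSA
    obtain ⟨⟨a1, a2⟩, a3, a4, ⟨a5, a6⟩, a7, a8⟩ := hSA
    rw [hDy] at a1 a2 a4
    refine ⟨?_, ?_, ?_, ?_⟩
    · intro p r hpr
      by_cases hp : p ∈ U
      · have hrU : r ∈ U := hU p r hpr.le hp
        simp only [hp, hrU, if_true]
        exact hψmono (hSm hpr)
      · by_cases hrU : r ∈ U
        · simp only [hp, hrU, if_true, if_false]
          exact lt_of_lt_of_le (hSm hpr) (hψge _)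
        · simp only [hp, hrU, if_false]
          exact hSm hpr
    · show M (ks Q) z y₀ - K1 + h ≤ D z y₀ (fun x => if x ∈ U then ψ (S x) else S x)
      have e : D z y₀ (fun x => if x ∈ U then ψ (S x) else S x) = D z y₀ S + h := by
        unfold D
        simp only [hz, hy₀, if_true, if_false]
        rw [hψ2 (S z) a1 a2]
        ring
      rw [e]
      linarith
    · rw [if_neg hbot]
      have e : (if (⊤ : Q) ∈ U then ψ (S ⊤) else S ⊤) = S ⊤ := by
        split_ifs
        · exact hψ3 (S ⊤) a4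
        · rfl
      rw [e]
    · rw [prod_weight U y b l m hmp.le (h / l) (by positivity) (by
        rw [div_le_one hlp]
        exact hhl.le) S J hJ hSy]
      apply ENNReal.ofReal_le_ofReal
      have w1 := card_window_ge (μ := ks Q) U y b (b + l) S
      have w2 := card_window_le (μ := ks Q) U y (b + l + m) (b + 2 * l + m) S
      apply weight_ge (h / l) (by positivity) (by
        rw [div_le_one hlp]
        exact hhl.le)
      · -- number on the right
        have w3 : ((U.filter fun x => b + l + m < D x y S ∧ D x y S ≤ b + 2 * l + m).card : ℝ) ≤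
            3 * (20 * (1 + C)) * l := by
          have : 2 * κ ≤ (20 * (1 + C)) * l := by
            rw [hκ]
            have q1 : 192 * f * L ≤ L * L := mul_le_mul_of_nonneg_right L4 Lp.le
            have q2 : L * L = l := by rw [hl]; ring
            have q3 : 1 * l ≤ (20 * (1 + C)) * l :=
              mul_le_mul_of_nonneg_right (by linarith) hlp.le
            linarith
          linarith
        have w4 : ((U.filter fun x => b + l + m < D x y S ∧ D x y S ≤ b + 2 * l + m).card : ℝ) *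
            (h / l) ^ 2 ≤ 3 * (20 * (1 + C)) * l * (h / l) ^ 2 :=
          mul_le_mul_of_nonneg_right w3 (by positivity)
        refine w4.trans ?_
        have e : 3 * (20 * (1 + C)) * l * (h / l) ^ 2 = (3 * (20 * (1 + C)) * h ^ 2) / l := by
          field_simp
        rw [e, div_le_iff₀ hlp]
        linarith
      · have w3 : ((U.filter fun x => b + l + m < D x y S ∧ D x y S ≤ b + 2 * l + m).card : ℝ) -
            ((U.filter fun x => b < D x y S ∧ D x y S ≤ b + l).card : ℝ) ≤ l / (4 * h) := by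
          have e1 : l / (4 * h) = l / (8 * h) + l / (8 * h) := by
            field_simp
            ring
          have e2 : 4 * κ ≤ l / (8 * h) := by
            rw [le_div_iff₀ (by positivity), hκ]
            have q1 : 16 * h * (192 * f) * L ≤ L * L := mul_le_mul_of_nonneg_right L3 Lp.le
            have q2 : L * L = l := by rw [hl]; ring
            linarith
          linarith
        have w4 := mul_le_mul_of_nonneg_right w3 (by positivity : 0 ≤ h / l)
        refine w4.trans (le_of_eq ?_)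
        field_simp)
  -- conclusion
  have e2 : {S : Q → ℝ | pin y 0 S ∈ B} = B := by
    ext S
    show M (ks Q) z y₀ - K1 + h ≤ D z y₀ (pin y 0 S) ↔ M (ks Q) z y₀ - K1 + h ≤ D z y₀ S
    rw [D_pin]
  rw [e2] at key
  have key2 : 1 / 2 * (ks Q).real {S | pin y 0 S ∈ A} ≤ (ks Q).real B := by
    have := ENNReal.toReal_mono (measure_ne_top _ _) key
    rw [ENNReal.toReal_mul, ENNReal.toReal_ofReal (by norm_num)] at this
    exact this
  have hPB : (ks Q).real B ≤ 1 / 16 := by
    have p2 : (ks Q).real {S | K1 ≤ |D z y₀ S - M (ks Q) z y₀|} ≤ 1 / 16 := by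
      refine (hr.isKS.cheb z y₀ K1 (by positivity)).trans ?_
      rw [div_le_iff₀ (by positivity)]
      have hv := hr.V_le z y₀
      rw [abs_of_pos hM0] at hv
      refine num2 C G _ hC hG (hv.trans ?_)
      apply mul_le_mul_of_nonneg_left _ (by linarith)
      linarith
    refine le_trans (measureReal_mono ?_ (measure_ne_top _ _)) p2
    intro S hS
    have hS' : M (ks Q) z y₀ - K1 + h ≤ D z y₀ S := hS
    show K1 ≤ |D z y₀ S - M (ks Q) z y₀|
    refine le_trans ?_ (le_abs_self _)
    linarith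
  linarith

end KS
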