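import Mathlib

/-! Elementary sums for module K (helper64). -/

set_option autoImplicit false

namespace KS

open Finset

theorem sum_inv_sq_le (n : ℕ) : ∑ i ∈ range n, 1 / ((i : ℝ) + 1) ^ 2 ≤ 2 - 1 / (n : ℝ) := by
  induction n with
  | zero => simp
  | succ n ih =>
    rw [Finset.sum_range_succ]
    rcases Nat.eq_zero_or_pos n with h | h
    · subst h
      norm_num
    · have hn : (0 : ℝ) < n := by exact_mod_cast h
      have : 1 / ((n : ℝ) + 1) ^ 2 ≤ 1 / (n : ℝ) - 1 / ((n : ℝ) + 1) := by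
        rw [div_sub_div _ _ hn.ne' (by positivity), div_le_div_iff₀ (by positivity) (by positivity)]
        nlinarith
      push_cast
      linarith

open Classical in
theorem shell_sum {ι : Type*} [Fintype ι] (p g : ι → ℝ) (N K : ℝ) (hK : 0 ≤ K)
    (hcard : ∀ i : ℕ, ((univ.filter fun x => (i : ℝ) ≤ g x ∧ g x < i + 1).card : ℝ) ≤ N)
    (hg : ∀ x, 0 ≤ g x) (hp : ∀ x, p x ≤ K / ((⌊g x⌋₊ : ℝ) + 1) ^ 2) :
    ∑ x, p x ≤ 2 * K * N := by
  have hN : 0 ≤ N := le_trans (Nat.cast_nonneg _) (hcard 0)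
  obtain ⟨n, hn⟩ : ∃ n : ℕ, ∀ x, ⌊g x⌋₊ < n := by
    obtain ⟨n, hn⟩ := (Set.finite_range fun x => ⌊g x⌋₊).bddAbove
    exact ⟨n + 1, fun x => Nat.lt_succ_of_le (hn ⟨x, rfl⟩)⟩
  calc ∑ x, p x ≤ ∑ x, K / ((⌊g x⌋₊ : ℝ) + 1) ^ 2 := Finset.sum_le_sum fun x _ => hp x
    _ = ∑ i ∈ range n, ∑ x ∈ univ.filter (fun x => ⌊g x⌋₊ = i), K / ((⌊g x⌋₊ : ℝ) + 1) ^ 2 := by
        rw [Finset.sum_fiberwise_of_maps_to]
        intro x _
        exact Finset.mem_range.2 (hn x)
    _ ≤ ∑ i ∈ range n, N * (K * (1 / ((i : ℝ) + 1) ^ 2)) := by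
        apply Finset.sum_le_sum
        intro i _
        have h1 : ∑ x ∈ univ.filter (fun x => ⌊g x⌋₊ = i), K / ((⌊g x⌋₊ : ℝ) + 1) ^ 2 =
            ((univ.filter fun x => ⌊g x⌋₊ = i).card : ℝ) * (K * (1 / ((i : ℝ) + 1) ^ 2)) := by
          rw [← nsmul_eq_mul, ← Finset.sum_const]
          apply Finset.sum_congr rfl
          intro x hx
          rw [(Finset.mem_filter.1 hx).2]
          ring
        rw [h1]
        apply mul_le_mul_of_nonneg_right _ (by positivity)
        refine le_trans ?_ (hcard i)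
        apply Nat.cast_le.2
        apply Finset.card_le_card
        intro x hx
        rw [Finset.mem_filter] at hx ⊢
        refine ⟨hx.1, ?_, ?_⟩
        · rw [← hx.2]
          exact Nat.floor_le (hg x)
        · rw [← hx.2]
          exact Nat.lt_floor_add_one _
    _ = N * K * ∑ i ∈ range n, (1 / ((i : ℝ) + 1) ^ 2) := by
        rw [Finset.mul_sum]
        apply Finset.sum_congr rfl
        intro i _
        ring
    _ ≤ N * K * 2 := by
        apply mul_le_mul_of_nonneg_left _ (by positivity)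
        have := sum_inv_sq_le n
        have h0 : (0 : ℝ) ≤ 1 / (n : ℝ) := by positivity
        linarith
    _ = 2 * K * N := by ring

/-- pigeonhole for increments -/
theorem exists_small_step (f : ℕ → ℝ) (q : ℕ) (hq : 0 < q) (E : ℝ) (h : f q - f 0 ≤ E) :
    ∃ j < q, f (j + 1) - f j ≤ E / q := by
  by_contra hcon
  push Not at hcon
  have hs : ∑ j ∈ range q, (f (j + 1) - f j) = f q - f 0 := Finset.sum_range_sub f q
  have hlt : ∑ j ∈ range q, (E / q) < ∑ j ∈ range q, (f (j + 1) - f j) := by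
    apply Finset.sum_lt_sum_of_nonempty
    · exact ⟨0, Finset.mem_range.2 hq⟩
    · intro j hj
      exact hcon j (Finset.mem_range.1 hj)
  rw [hs, Finset.sum_const, Finset.card_range, nsmul_eq_mul] at hlt
  have hq' : (0 : ℝ) < q := by exact_mod_cast hq
  have : (q : ℝ) * (E / q) = E := by field_simp
  linarith

/-- the weight estimate -/
theorem weight_ge (a : ℝ) (ha : 0 ≤ a) (ha1 : a ≤ 1) (u v : ℕ) (hv : (v : ℝ) * a ^ 2 ≤ 1 / 4)
    (huv : ((v : ℝ) - u) * a ≤ 1 / 4) : 1 / 2 ≤ (1 + a) ^ u * (1 - a) ^ v := by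
  have h1 : 0 ≤ 1 - a := by linarith
  have h2 : 0 ≤ 1 - a ^ 2 := by nlinarith
  rcases le_total v u with h | h
  · obtain ⟨k, rfl⟩ := Nat.exists_eq_add_of_le h
    have e : (1 + a) ^ (v + k) * (1 - a) ^ v = (1 - a ^ 2) ^ v * (1 + a) ^ k := by
      rw [pow_add, mul_right_comm, ← mul_pow]
      ring
    rw [e]
    have b1 : 1 - v * a ^ 2 ≤ (1 - a ^ 2) ^ v := by
      have := one_add_mul_le_pow (a := -a ^ 2) (by nlinarith) v
      have e2 : (1 : ℝ) + -a ^ 2 = 1 - a ^ 2 := by ring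
      rw [e2] at this
      linarith
    have b2 : 1 ≤ (1 + a) ^ k := one_le_pow₀ (by linarith)
    nlinarith
  · obtain ⟨k, rfl⟩ := Nat.exists_eq_add_of_le h
    have e : (1 + a) ^ u * (1 - a) ^ (u + k) = (1 - a ^ 2) ^ u * (1 - a) ^ k := by
      rw [pow_add, ← mul_assoc, ← mul_pow]
      ring
    rw [e]
    push_cast at hv huv
    have b1 : 1 - u * a ^ 2 ≤ (1 - a ^ 2) ^ u := by
      have := one_add_mul_le_pow (a := -a ^ 2) (by nlinarith) u
      have e2 : (1 : ℝ) + -a ^ 2 = 1 - a ^ 2 := by ring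
      rw [e2] at this
      linarith
    have b2 : 1 - k * a ≤ (1 - a) ^ k := by
      have := one_add_mul_le_pow (a := -a) (by linarith) k
      have e2 : (1 : ℝ) + -a = 1 - a := by ring
      rw [e2] at this
      linarith
    have hk : (0 : ℝ) ≤ k * a ^ 2 := by positivity
    have b3 : 3 / 4 ≤ (1 - a ^ 2) ^ u := by nlinarith
    have b4 : 3 / 4 ≤ (1 - a) ^ k := by nlinarith
    have b5 : (1 - a) ^ k ≥ 0 := pow_nonneg h1 k
    nlinarith

end KS
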