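import Pool.Agent.Lib.MP_c534e4_co.Basic
import Pool.Agent.Lib.MP_c534e4_co.H64.Shell

/-! Fluctuation of counting functions in a rigid model (helper64). -/

set_option autoImplicit false

namespace KS

open MeasureTheory Set

variable {Q : Type} [Fintype Q] {μ : Measure (Q → ℝ)}

/-- a rigid model -/
structure Rigid (μ : Measure (Q → ℝ)) (C : ℝ) : Prop where
  isKS : IsKS μ
  one_le : 1 ≤ C
  V_le : ∀ x y, V μ x y ≤ C * (1 + |M μ x y|)

namespace Rigid

variable {C : ℝ}

theorem sqrt_V_le (h : Rigid μ C) (x y : Q) (r : ℝ) (hr : |M μ x y| ≤ r) :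
    Real.sqrt (V μ x y) ≤ C * (1 + r) := by
  have hC := h.one_le
  have h0 := abs_nonneg (M μ x y)
  have hv := h.V_le x y
  rw [Real.sqrt_le_left (by nlinarith)]
  have h1 : 1 ≤ C * (1 + r) := by nlinarith
  have h2 : V μ x y ≤ C * (1 + r) := by nlinarith
  nlinarith

open Classical in
theorem card_M_le (h : Rigid μ C) (z : Q) (r : ℝ) (hr : 0 ≤ r) :
    ((Finset.univ.filter (fun x : Q => |M μ x z| ≤ r)).card : ℝ) ≤ 20 * (1 + C) * (r + 1) := by
  have hC := h.one_le
  refine le_trans ?_ ((h.isKS.card_le z (r + C * (1 + r)) (by positivity)).trans (le_of_eq (by ring)))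
  apply Nat.cast_le.2
  apply Finset.card_le_card
  intro x hx
  rw [Finset.mem_filter] at hx ⊢
  refine ⟨hx.1, ?_⟩
  have h1 := h.isKS.d_le x z
  have h2 := h.sqrt_V_le x z r hx.2
  linarith [hx.2]

theorem M_sub (h : Rigid μ C) (x y z : Q) : M μ x z = M μ x y - M μ z y := by
  have h1 := h.isKS.M_add x y z
  have h2 := M_symm μ z y
  linarith

open Classical in
theorem card_interval (h : Rigid μ C) (y : Q) (a B : ℝ) (hB : 0 ≤ B) :
    ((Finset.univ.filter (fun x : Q => a ≤ M μ x y ∧ M μ x y ≤ a + B)).card : ℝ)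
      ≤ 20 * (1 + C) * (B + 1) := by
  have hC := h.one_le
  rcases (Finset.univ.filter (fun x : Q => a ≤ M μ x y ∧ M μ x y ≤ a + B)).eq_empty_or_nonempty with
    he | ⟨z, hz⟩
  · rw [he]
    simp only [Finset.card_empty, Nat.cast_zero]
    positivity
  · refine le_trans ?_ (h.card_M_le z B hB)
    apply Nat.cast_le.2
    apply Finset.card_le_card
    intro x hx
    rw [Finset.mem_filter] at hx hz ⊢
    refine ⟨hx.1, ?_⟩
    rw [h.M_sub x y z, abs_le]
    constructor <;> linarith [hx.2.1, hx.2.2, hz.2.1, hz.2.2]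

open Classical in
theorem card_shell (h : Rigid μ C) (y : Q) (b B : ℝ) (hB : 1 ≤ B) (i : ℕ) :
    ((Finset.univ.filter (fun x : Q => (i : ℝ) ≤ |M μ x y - b| / B ∧ |M μ x y - b| / B < i + 1)).card
      : ℝ) ≤ 80 * (1 + C) * B := by
  have hC := h.one_le
  have hB0 : 0 < B := by linarith
  have h1 := h.card_interval y (b + i * B) B hB0.le
  have h2 := h.card_interval y (b - (i + 1) * B) B hB0.le
  have h3 : ((Finset.univ.filter (fun x : Q => (i : ℝ) ≤ |M μ x y - b| / B ∧
      |M μ x y - b| / B < i + 1)).card : ℝ) ≤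
      ((Finset.univ.filter (fun x : Q => b + i * B ≤ M μ x y ∧ M μ x y ≤ b + i * B + B)).card : ℝ) +
      ((Finset.univ.filter (fun x : Q => b - (i + 1) * B ≤ M μ x y ∧
        M μ x y ≤ b - (i + 1) * B + B)).card : ℝ) := by
    rw [← Nat.cast_add]
    apply Nat.cast_le.2
    refine le_trans (Finset.card_le_card ?_) (Finset.card_union_le _ _)
    intro x hx
    rw [Finset.mem_union, Finset.mem_filter, Finset.mem_filter]
    rw [Finset.mem_filter, le_div_iff₀ hB0, div_lt_iff₀ hB0] at hx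
    obtain ⟨_, hx1, hx2⟩ := hx
    rcases le_total 0 (M μ x y - b) with hs | hs
    · left
      rw [abs_of_nonneg hs] at hx1 hx2
      exact ⟨Finset.mem_univ _, by linarith, by linarith⟩
    · right
      rw [abs_of_nonpos hs] at hx1 hx2
      exact ⟨Finset.mem_univ _, by linarith, by linarith⟩
  nlinarith

theorem real_le_one (h : Rigid μ C) (s : Set (Q → ℝ)) : μ.real s ≤ 1 := by
  have := h.isKS.prob
  exact measureReal_le_one

theorem real_mono (h : Rigid μ C) {s t : Set (Q → ℝ)} (hst : s ⊆ t) : μ.real s ≤ μ.real t := by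
  have := h.isKS.prob
  exact measureReal_mono hst

/-- tail estimate: if `|M - b|` is at least `i` units `B` then the probability of `|D - M|` exceeding
`|M - b|` is small. -/
theorem tail_shell (h : Rigid μ C) (x y : Q) (b B : ℝ) (hB : 1 ≤ B) (hb : |b| ≤ B ^ 2) :
    μ.real {S | |M μ x y - b| ≤ |D x y S - M μ x y|} ≤
      (10 ^ 12 * C ^ 3) / ((⌊|M μ x y - b| / B⌋₊ : ℝ) + 1) ^ 2 := by
  have hC := h.one_le
  have hB0 : 0 < B := by linarith
  set i : ℕ := ⌊|M μ x y - b| / B⌋₊ with hi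
  have hi1 : (i : ℝ) ≤ |M μ x y - b| / B := Nat.floor_le (by positivity)
  have hi2 : |M μ x y - b| / B < i + 1 := Nat.lt_floor_add_one _
  rw [le_div_iff₀ hB0] at hi1
  rw [div_lt_iff₀ hB0] at hi2
  rcases Nat.eq_zero_or_pos i with h0 | hpos
  · rw [h0]
    refine (h.real_le_one _).trans ?_
    have : (1 : ℝ) ≤ C ^ 3 := one_le_pow₀ hC
    norm_num
    linarith
  · have hi0 : (1 : ℝ) ≤ i := by exact_mod_cast hpos
    have hs : 0 < (i : ℝ) * B := by positivity
    have h1 := h.isKS.tail_6 x y ((i : ℝ) * B) hs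
    have h2 : μ.real {S | |M μ x y - b| ≤ |D x y S - M μ x y|} ≤
        μ.real {S | (i : ℝ) * B ≤ |D x y S - M μ x y|} :=
      h.real_mono fun S hS => hi1.trans hS
    refine h2.trans (h1.trans ?_)
    have hM : |M μ x y| ≤ B ^ 2 + (i + 1) * B := by
      have : |M μ x y| ≤ |M μ x y - b| + |b| := by
        have := abs_add_le (M μ x y - b) b
        simpa using this
      linarith
    have hV : V μ x y ≤ C * B ^ 2 * (3 * i + 1) := by
      have h5 := h.V_le x y
      have h6 : 1 + |M μ x y| ≤ B ^ 2 * (3 * i + 1) := by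
        have : (1 : ℝ) ≤ B ^ 2 := one_le_pow₀ hB
        have h7 : (i + 1) * B ≤ (i + 1) * B ^ 2 := by
          apply mul_le_mul_of_nonneg_left _ (by positivity)
          nlinarith
        nlinarith
      nlinarith
    have hV' : V μ x y ≤ C * B ^ 2 * (4 * i) := by
      have : 0 ≤ C * B ^ 2 := by positivity
      nlinarith
    have hV3 : (V μ x y) ^ 3 ≤ (C * B ^ 2 * (4 * i)) ^ 3 :=
      pow_le_pow_left₀ (V_nonneg μ x y) hV' 3
    rw [div_le_div_iff₀ (by positivity) (by positivity)]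
    have hi3 : ((i : ℝ) + 1) ^ 2 ≤ (2 * i) ^ 2 := pow_le_pow_left₀ (by positivity) (by linarith) 2
    calc 10 ^ 9 * (V μ x y) ^ 3 * ((i : ℝ) + 1) ^ 2
        ≤ 10 ^ 9 * (C * B ^ 2 * (4 * i)) ^ 3 * (2 * i) ^ 2 := by
          apply mul_le_mul _ hi3 (by positivity) (by positivity)
          apply mul_le_mul_of_nonneg_left hV3 (by positivity)
      _ = 256 * 10 ^ 9 * C ^ 3 * B ^ 6 * i ^ 5 := by ring
      _ ≤ 10 ^ 12 * C ^ 3 * B ^ 6 * i ^ 6 := by
          have e1 : (i : ℝ) ^ 5 ≤ i ^ 6 := pow_le_pow_right₀ hi0 (by norm_num)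
          have e2 : 0 ≤ C ^ 3 * B ^ 6 := by positivity
          have e3 : 0 ≤ (i : ℝ) ^ 5 := by positivity
          have e4 : C ^ 3 * B ^ 6 * (i : ℝ) ^ 5 ≤ C ^ 3 * B ^ 6 * (i : ℝ) ^ 6 :=
            mul_le_mul_of_nonneg_left e1 e2
          have e5 : 0 ≤ C ^ 3 * B ^ 6 * (i : ℝ) ^ 5 := by positivity
          nlinarith
      _ = 10 ^ 12 * C ^ 3 * ((i : ℝ) * B) ^ 6 := by ring

/-- constant of the fluctuation lemma -/
noncomputable def cf (C : ℝ) : ℝ := 2 * (10 ^ 12 * C ^ 3) * (80 * (1 + C))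

theorem fluct_sum (h : Rigid μ C) (y : Q) (b B : ℝ) (hB : 1 ≤ B) (hb : |b| ≤ B ^ 2) :
    ∑ x, μ.real {S | |M μ x y - b| ≤ |D x y S - M μ x y|} ≤ cf C * B := by
  classical
  have hC := h.one_le
  have h1 := shell_sum (fun x : Q => μ.real {S | |M μ x y - b| ≤ |D x y S - M μ x y|})
    (fun x => |M μ x y - b| / B) (80 * (1 + C) * B) (10 ^ 12 * C ^ 3) (by positivity)
    (fun i => h.card_shell y b B hB i) (fun x => by positivity)
    (fun x => h.tail_shell x y b B hB hb)
  refine h1.trans (le_of_eq ?_)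
  unfold cf
  ring

/-- the expected number of misplaced elements -/
theorem fluct (h : Rigid μ C) (y : Q) (b B : ℝ) (hB : 1 ≤ B) (hb : |b| ≤ B ^ 2) :
    ∑ x, μ.real {S | ¬ (D x y S ≤ b ↔ M μ x y ≤ b)} ≤ cf C * B := by
  refine le_trans (Finset.sum_le_sum fun x _ => h.real_mono ?_) (h.fluct_sum y b B hB hb)
  intro S hS
  simp only [mem_ofPred_eq] at hS ⊢
  by_cases h1 : D x y S ≤ b
  · have h2 : ¬ M μ x y ≤ b := fun h2 => hS ⟨fun _ => h2, fun _ => h1⟩
    rw [not_le] at h2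
    rw [abs_of_nonneg (by linarith), abs_of_nonpos (by linarith)]
    linarith
  · have h2 : M μ x y ≤ b := by
      by_contra h2
      exact hS ⟨fun h3 => absurd h3 h1, fun h3 => absurd h3 h2⟩
    rw [not_le] at h1
    rw [abs_of_nonpos (by linarith), abs_of_nonneg (by linarith)]
    linarith

/-- no far element is misplaced by half of its distance, `G` large -/
theorem far_sum (h : Rigid μ C) (z : Q) (G : ℝ) (hG : 10 ^ 17 * C ^ 4 ≤ G) :
    ∑ x, μ.real {S | G < |M μ x z| ∧ |M μ x z| / 2 ≤ |D x z S - M μ x z|} ≤ 1 / 4 := by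
  classical
  have hC := h.one_le
  have hC4 : 1 ≤ C ^ 4 := one_le_pow₀ hC
  have hG1 : 1 ≤ G := by linarith
  have hG0 : 0 < G := by linarith
  have hcard : ∀ i : ℕ, ((Finset.univ.filter (fun x : Q => (i : ℝ) ≤ |M μ x z| ∧
      |M μ x z| < i + 1)).card : ℝ) ≤ 80 * (1 + C) := by
    intro i
    have := h.card_shell z 0 1 le_rfl i
    simpa using this
  have hp : ∀ x : Q, μ.real {S | G < |M μ x z| ∧ |M μ x z| / 2 ≤ |D x z S - M μ x z|} ≤
      (4 * (512 * 10 ^ 9 * C ^ 3 / G)) / ((⌊|M μ x z|⌋₊ : ℝ) + 1) ^ 2 := by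
    intro x
    by_cases hx : G < |M μ x z|
    · set m := |M μ x z| with hm
      have hm1 : 1 < m := by linarith
      have hm0 : 0 < m := by linarith
      have h1 := h.isKS.tail_6 x z (m / 2) (by positivity)
      refine (h.real_mono (t := {S | m / 2 ≤ |D x z S - M μ x z|}) fun S hS => hS.2).trans
        (h1.trans ?_)
      have hV := h.V_le x z
      have hV' : V μ x z ≤ 2 * C * m := by nlinarith
      have hV3 : (V μ x z) ^ 3 ≤ (2 * C * m) ^ 3 := pow_le_pow_left₀ (V_nonneg μ x z) hV' 3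
      have hi : (⌊m⌋₊ : ℝ) + 1 ≤ 2 * m := by
        have := Nat.floor_le hm0.le
        linarith
      have hi2 : ((⌊m⌋₊ : ℝ) + 1) ^ 2 ≤ (2 * m) ^ 2 := pow_le_pow_left₀ (by positivity) hi 2
      rw [div_le_div_iff₀ (by positivity) (by positivity)]
      calc 10 ^ 9 * (V μ x z) ^ 3 * ((⌊m⌋₊ : ℝ) + 1) ^ 2
          ≤ 10 ^ 9 * (2 * C * m) ^ 3 * (2 * m) ^ 2 := by
            apply mul_le_mul _ hi2 (by positivity) (by positivity)
            apply mul_le_mul_of_nonneg_left hV3 (by positivity)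
        _ = 32 * 10 ^ 9 * C ^ 3 * m ^ 5 := by ring
        _ ≤ 32 * 10 ^ 9 * C ^ 3 * m ^ 5 * (m / G) := by
            have : 1 ≤ m / G := by
              rw [le_div_iff₀ hG0]
              linarith
            have h0 : 0 ≤ 32 * 10 ^ 9 * C ^ 3 * m ^ 5 := by positivity
            nlinarith
        _ = 4 * (512 * 10 ^ 9 * C ^ 3 / G) * (m / 2) ^ 6 := by
            field_simp
            ring
    · have : {S : Q → ℝ | G < |M μ x z| ∧ |M μ x z| / 2 ≤ |D x z S - M μ x z|} = ∅ := by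
        ext S
        simp only [mem_ofPred_eq, mem_empty_iff_false, iff_false]
        exact fun hS => hx hS.1
      rw [this]
      simp only [measureReal_empty]
      positivity
  have h1 := shell_sum (fun x : Q => μ.real {S | G < |M μ x z| ∧
      |M μ x z| / 2 ≤ |D x z S - M μ x z|}) (fun x => |M μ x z|) (80 * (1 + C))
      (4 * (512 * 10 ^ 9 * C ^ 3 / G)) (by positivity) hcard (fun x => abs_nonneg _) hp
  refine h1.trans ?_
  have e : 2 * (4 * (512 * 10 ^ 9 * C ^ 3 / G)) * (80 * (1 + C)) =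
      (327680 * 10 ^ 9 * C ^ 3 * (1 + C)) / G := by ring
  rw [e, div_le_iff₀ hG0]
  have h2 : C ^ 3 * (1 + C) ≤ 2 * C ^ 4 := by
    have : 0 ≤ C ^ 3 := by positivity
    nlinarith
  nlinarith

end Rigid

end KS
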