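import Pool.Agent.Lib.MP_c534e4_co.H64.Succ

/-! Coverage of the interval between two incomparable elements; Markov estimate for the number of
misplaced elements; products of weights (helper64). -/

set_option autoImplicit false

namespace KS

open MeasureTheory Set
open scoped ENNReal

section cover

variable {Q : Type} [Fintype Q] [PartialOrder Q] [BoundedOrder Q]

theorem ks_M_top_nonneg (x : Q) : 0 ≤ M (ks Q) ⊤ x := by
  rcases eq_or_ne x ⊤ with rfl | h
  · rw [M_self]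
  · have := ks_M_ge_one x ⊤ (lt_top_iff_ne_top.2 h)
    linarith

theorem ks_M_bot_nonneg (x : Q) : 0 ≤ M (ks Q) x ⊥ := by
  rcases eq_or_ne x ⊥ with rfl | h
  · rw [M_self]
  · have := ks_M_ge_one ⊥ x (bot_lt_iff_ne_bot.2 h)
    linarith

theorem cover_up (C : ℝ) (hr : Rigid (ks Q) C)
    (hgap : ∀ z : Q, (∀ y, M (ks Q) y z ≤ 0) ∨ ∃ y, 0 < M (ks Q) y z ∧ M (ks Q) y z ≤ C)
    (x₁ x₂ : Q) (hx : ¬ x₁ ≤ x₂) (t : ℝ) (ht0 : 0 ≤ t) (ht : t < M (ks Q) x₂ x₁) :
    ∃ x, x₁ ≤ x ∧ t < M (ks Q) x x₁ ∧ M (ks Q) x x₁ ≤ t + cg C := by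
  classical
  obtain ⟨z, hz, hmax⟩ := Finset.exists_max_image
    (Finset.univ.filter fun w : Q => x₁ ≤ w ∧ M (ks Q) w x₁ ≤ t) (fun w => M (ks Q) w x₁)
    ⟨x₁, by
      rw [Finset.mem_filter, M_self]
      exact ⟨Finset.mem_univ _, le_rfl, ht0⟩⟩
  rw [Finset.mem_filter] at hz
  have hzt : z ≠ ⊤ := by
    rintro rfl
    have h1 := ks_M_top_nonneg x₂
    have h2 := hr.isKS.M_add ⊤ x₂ x₁
    linarith [hz.2.2]
  have hzb : z ≠ ⊥ := by
    rintro rfl
    exact hx ((le_bot_iff.1 hz.2.1).le.trans bot_le)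
  obtain ⟨z', hz', hM⟩ := exists_near_succ C hr hgap z hzt hzb
  have h1 := ks_M_ge_one z z' hz'
  have h2 := hr.isKS.M_add z' z x₁
  refine ⟨z', hz.2.1.trans hz'.le, ?_, ?_⟩
  · by_contra hlt
    rw [not_lt] at hlt
    have := hmax z' (by
      rw [Finset.mem_filter]
      exact ⟨Finset.mem_univ _, hz.2.1.trans hz'.le, hlt⟩)
    linarith
  · linarith [hz.2.2]

theorem cover_dn (C : ℝ) (hr : Rigid (ks Q) C)
    (hgap : ∀ z : Q, (∀ y, M (ks Q) y z ≤ 0) ∨ ∃ y, 0 < M (ks Q) y z ∧ M (ks Q) y z ≤ C)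
    (x₁ x₂ : Q) (hx : ¬ x₁ ≤ x₂) (t : ℝ) (ht0 : 0 < t) (ht : t ≤ M (ks Q) x₂ x₁) :
    ∃ y, ¬ x₁ ≤ y ∧ t - cg C ≤ M (ks Q) y x₁ ∧ M (ks Q) y x₁ < t := by
  classical
  obtain ⟨z, hz, hmin⟩ := Finset.exists_min_image
    (Finset.univ.filter fun w : Q => ¬ x₁ ≤ w ∧ t ≤ M (ks Q) w x₁) (fun w => M (ks Q) w x₁)
    ⟨x₂, by
      rw [Finset.mem_filter]
      exact ⟨Finset.mem_univ _, hx, ht⟩⟩
  rw [Finset.mem_filter] at hz
  have hzt : z ≠ ⊤ := by
    rintro rfl
    exact hz.2.1 le_top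
  have hzb : z ≠ ⊥ := by
    rintro rfl
    have h1 := ks_M_bot_nonneg x₁
    have h2 := M_symm (ks Q) x₁ ⊥
    linarith [hz.2.2]
  obtain ⟨z', hz', hM⟩ := exists_near_pred C hr hgap z hzt hzb
  have h1 := ks_M_ge_one z' z hz'
  have h2 := hr.isKS.M_add z z' x₁
  have hnz' : ¬ x₁ ≤ z' := fun h => hz.2.1 (h.trans hz'.le)
  refine ⟨z', hnz', ?_, ?_⟩
  · linarith [hz.2.2]
  · by_contra hlt
    rw [not_lt] at hlt
    have := hmin z' (by
      rw [Finset.mem_filter]
      exact ⟨Finset.mem_univ _, hnz', hlt⟩)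
    linarith

end cover

section mis

variable {Q : Type} [Fintype Q] {μ : Measure (Q → ℝ)}

open Classical in
/-- number of elements misplaced with respect to the level `b` -/
noncomputable def mis (μ : Measure (Q → ℝ)) (y : Q) (b : ℝ) (S : Q → ℝ) : ℝ :=
  ∑ x : Q, if (D x y S ≤ b ↔ M μ x y ≤ b) then 0 else 1

theorem measurableSet_misplaced (x y : Q) (b : ℝ) :
    MeasurableSet {S : Q → ℝ | ¬ (D x y S ≤ b ↔ M μ x y ≤ b)} := by
  have h : MeasurableSet {S : Q → ℝ | D x y S ≤ b} :=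
    measurableSet_le (measurable_D x y) measurable_const
  by_cases hM : M μ x y ≤ b
  · have : {S : Q → ℝ | ¬ (D x y S ≤ b ↔ M μ x y ≤ b)} = {S : Q → ℝ | D x y S ≤ b}ᶜ := by
      ext S
      simp only [mem_ofPred_eq, mem_compl_iff, hM, iff_true]
    rw [this]
    exact h.compl
  · have : {S : Q → ℝ | ¬ (D x y S ≤ b ↔ M μ x y ≤ b)} = {S : Q → ℝ | D x y S ≤ b} := by
      ext S
      simp only [mem_ofPred_eq, hM, iff_false, not_not]
    rw [this]
    exact h

theorem measurable_mis (y : Q) (b : ℝ) : Measurable (mis μ y b) := by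
  classical
  unfold mis
  apply Finset.measurable_sum
  intro x _
  apply Measurable.ite
  · have h := (measurableSet_misplaced (μ := μ) x y b).compl
    have e : {S : Q → ℝ | (D x y S ≤ b ↔ M μ x y ≤ b)} =
        {S : Q → ℝ | ¬ (D x y S ≤ b ↔ M μ x y ≤ b)}ᶜ := by
      ext S
      simp only [mem_ofPred_eq, mem_compl_iff, not_not]
    rw [← e] at h
    exact h
  · exact measurable_const
  · exact measurable_const

theorem mis_nonneg (y : Q) (b : ℝ) (S : Q → ℝ) : 0 ≤ mis μ y b S := by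
  classical
  unfold mis
  apply Finset.sum_nonneg
  intro x _
  split_ifs <;> norm_num

theorem mis_markov [IsProbabilityMeasure μ] (y : Q) (b t : ℝ) (ht : 0 < t) :
    μ.real {S | t ≤ mis μ y b S} ≤
      (∑ x, μ.real {S | ¬ (D x y S ≤ b ↔ M μ x y ≤ b)}) / t := by
  classical
  have hint : ∀ x : Q, Integrable (fun S => if (D x y S ≤ b ↔ M μ x y ≤ b) then (0 : ℝ) else 1) μ := by
    intro x
    have e : (fun S => if (D x y S ≤ b ↔ M μ x y ≤ b) then (0 : ℝ) else 1) =
        ({S : Q → ℝ | ¬ (D x y S ≤ b ↔ M μ x y ≤ b)}).indicator (fun _ => (1 : ℝ)) := by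
      funext S
      by_cases h : (D x y S ≤ b ↔ M μ x y ≤ b)
      · simp [indicator, h]
      · simp [indicator, h]
    rw [e]
    exact (integrable_const 1).indicator (measurableSet_misplaced x y b)
  have hval : ∀ x : Q, ∫ S, (if (D x y S ≤ b ↔ M μ x y ≤ b) then (0 : ℝ) else 1) ∂μ =
      μ.real {S | ¬ (D x y S ≤ b ↔ M μ x y ≤ b)} := by
    intro x
    have e : (fun S => if (D x y S ≤ b ↔ M μ x y ≤ b) then (0 : ℝ) else 1) =
        ({S : Q → ℝ | ¬ (D x y S ≤ b ↔ M μ x y ≤ b)}).indicator (fun _ => (1 : ℝ)) := by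
      funext S
      by_cases h : (D x y S ≤ b ↔ M μ x y ≤ b)
      · simp [indicator, h]
      · simp [indicator, h]
    rw [e, integral_indicator (measurableSet_misplaced x y b)]
    simp
  have h1 := mul_meas_ge_le_integral_of_nonneg (μ := μ) (f := mis μ y b)
    (Filter.Eventually.of_forall fun S => mis_nonneg y b S)
    (by
      unfold mis
      exact integrable_finsetSum _ fun x _ => hint x) t
  have h2 : ∫ S, mis μ y b S ∂μ = ∑ x, μ.real {S | ¬ (D x y S ≤ b ↔ M μ x y ≤ b)} := by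
    unfold mis
    rw [integral_finsetSum _ fun x _ => hint x]
    exact Finset.sum_congr rfl fun x _ => hval x
  rw [h2] at h1
  rw [le_div_iff₀ ht]
  linarith [h1]

open Classical in
theorem mis_eq_card (y : Q) (b : ℝ) (S : Q → ℝ) :
    mis μ y b S = ((Finset.univ.filter fun x : Q => ¬ (D x y S ≤ b ↔ M μ x y ≤ b)).card : ℝ) := by
  unfold mis
  rw [Finset.card_filter, Nat.cast_sum]
  apply Finset.sum_congr rfl
  intro x _
  by_cases h : (D x y S ≤ b ↔ M μ x y ≤ b)
  · simp [h]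
  · simp [h]

open Classical in
theorem card_window_le (U : Finset Q) (y : Q) (s t : ℝ) (S : Q → ℝ) :
    ((U.filter fun x => s < D x y S ∧ D x y S ≤ t).card : ℝ) ≤
      ((U.filter fun x => s < M μ x y ∧ M μ x y ≤ t).card : ℝ) + (mis μ y s S + mis μ y t S) := by
  rw [mis_eq_card, mis_eq_card]
  rw [← Nat.cast_add, ← Nat.cast_add]
  apply Nat.cast_le.2
  refine le_trans (Finset.card_le_card ?_) ((Finset.card_union_le _ _).trans
    (Nat.add_le_add_left (Finset.card_union_le _ _) _))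
  intro x hx
  rw [Finset.mem_filter] at hx
  rw [Finset.mem_union, Finset.mem_union, Finset.mem_filter, Finset.mem_filter, Finset.mem_filter]
  obtain ⟨hxU, hx1, hx2⟩ := hx
  by_cases h1 : s < M μ x y
  · by_cases h2 : M μ x y ≤ t
    · exact Or.inl ⟨hxU, h1, h2⟩
    · exact Or.inr (Or.inr ⟨Finset.mem_univ _, fun h => h2 (h.1 hx2)⟩)
  · rw [not_lt] at h1
    exact Or.inr (Or.inl ⟨Finset.mem_univ _, fun h => absurd (h.2 h1) (not_le.2 hx1)⟩)

open Classical in
theorem card_window_ge (U : Finset Q) (y : Q) (s t : ℝ) (S : Q → ℝ) :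
    ((U.filter fun x => s < M μ x y ∧ M μ x y ≤ t).card : ℝ) ≤
      ((U.filter fun x => s < D x y S ∧ D x y S ≤ t).card : ℝ) + (mis μ y s S + mis μ y t S) := by
  rw [mis_eq_card, mis_eq_card]
  rw [← Nat.cast_add, ← Nat.cast_add]
  apply Nat.cast_le.2
  refine le_trans (Finset.card_le_card ?_) ((Finset.card_union_le _ _).trans
    (Nat.add_le_add_left (Finset.card_union_le _ _) _))
  intro x hx
  rw [Finset.mem_filter] at hx
  rw [Finset.mem_union, Finset.mem_union, Finset.mem_filter, Finset.mem_filter, Finset.mem_filter]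
  obtain ⟨hxU, hx1, hx2⟩ := hx
  by_cases h1 : s < D x y S
  · by_cases h2 : D x y S ≤ t
    · exact Or.inl ⟨hxU, h1, h2⟩
    · exact Or.inr (Or.inr ⟨Finset.mem_univ _, fun h => h2 (h.2 hx2)⟩)
  · rw [not_lt] at h1
    exact Or.inr (Or.inl ⟨Finset.mem_univ _, fun h => absurd (h.1 h1) (not_le.2 hx1)⟩)

open Classical in
omit [Fintype Q] in
/-- the weight of a stretched configuration -/
theorem prod_weight (U : Finset Q) (y : Q) (b l m : ℝ) (hm : 0 ≤ m) (a : ℝ)
    (ha : 0 ≤ a) (ha1 : a ≤ 1) (S : Q → ℝ) (J : ℝ → ℝ≥0∞)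
    (hJ : ∀ t, J t = if b < t ∧ t ≤ b + l then ENNReal.ofReal (1 + a) else
        if b + l + m < t ∧ t ≤ b + 2 * l + m then ENNReal.ofReal (1 - a) else 1) (hS : S y = 0) :
    ∏ x ∈ U, J (S x) = ENNReal.ofReal
      ((1 + a) ^ (U.filter fun x => b < D x y S ∧ D x y S ≤ b + l).card *
       (1 - a) ^ (U.filter fun x => b + l + m < D x y S ∧ D x y S ≤ b + 2 * l + m).card) := by
  have h1 : ∀ x, J (S x) = ENNReal.ofReal
      ((if b < D x y S ∧ D x y S ≤ b + l then (1 + a) else 1) *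
      (if b + l + m < D x y S ∧ D x y S ≤ b + 2 * l + m then (1 - a) else 1)) := by
    intro x
    have hD : D x y S = S x := by
      unfold D
      rw [hS, sub_zero]
    rw [hJ, hD]
    by_cases c1 : b < S x ∧ S x ≤ b + l
    · have c2 : ¬ (b + l + m < S x ∧ S x ≤ b + 2 * l + m) := by
        rintro ⟨h3, _⟩
        linarith [c1.2]
      rw [if_pos c1, if_pos c1, if_neg c2, mul_one]
    · rw [if_neg c1, if_neg c1, one_mul]
      by_cases c2 : b + l + m < S x ∧ S x ≤ b + 2 * l + m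
      · rw [if_pos c2, if_pos c2]
      · rw [if_neg c2, if_neg c2, ENNReal.ofReal_one]
  rw [Finset.prod_congr rfl fun x _ => h1 x]
  rw [← ENNReal.ofReal_prod_of_nonneg]
  · congr 1
    rw [Finset.prod_mul_distrib]
    congr 1
    · rw [Finset.prod_ite, Finset.prod_const, Finset.prod_const_one, mul_one]
    · rw [Finset.prod_ite, Finset.prod_const, Finset.prod_const_one, mul_one]
  · intro x _
    apply mul_nonneg
    · split_ifs <;> linarith
    · split_ifs <;> linarith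

end mis

end KS
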