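import Pool.Agent.Lib.MP_c534e4_co.Density
import Pool.Agent.Lib.MP_c534e4_co.H64.Fluct

/-! Near successors and predecessors in a rigid concrete model (helper64). -/

set_option autoImplicit false

namespace KS

open MeasureTheory Set
open scoped ENNReal

variable {Q : Type} [Fintype Q] [PartialOrder Q] [BoundedOrder Q]

omit [Fintype Q] [PartialOrder Q] [BoundedOrder Q] in
theorem D_pin (y : Q) (c : ℝ) (a b : Q) (S : Q → ℝ) : D a b (pin y c S) = D a b S := by
  unfold D pin
  ring

omit [Fintype Q] [PartialOrder Q] [BoundedOrder Q] in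
theorem pin_self (y : Q) (c : ℝ) (S : Q → ℝ) : pin y c S y = c := by
  unfold pin
  ring

/-- moving one element by `h` -/
theorem ks_shift (z y : Q) (hzy : z ≠ y) (hzt : z ≠ ⊤) (hzb : z ≠ ⊥) (h : ℝ)
    (E : Set (Q → ℝ)) (T : Set ℝ) (hE : MeasurableSet E) (hT : MeasurableSet T)
    (hS : ∀ S ∈ E, StrictMono S → (∀ b, z < b → S z + h < S b) ∧ (∀ a, a < z → S a < S z + h)) :
    (ks Q).real {S | pin y 0 S ∈ E ∧ D z y S ∈ T} ≤ (ks Q).real {S | D z y S - h ∈ T} := by
  classical
  have hm : Measurable (D z y : (Q → ℝ) → ℝ) := measurable_D z y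
  have key := ks_transform (Q := Q) y {z} (by simpa using hzy.symm) (fun t => t + h) (fun _ => 1)
    (measurable_id.add_const h) measurable_const
    (by
      have : (volume : Measure ℝ).withDensity (fun _ => (1 : ℝ≥0∞)) = volume := by
        exact withDensity_one
      rw [this]
      exact map_add_right_eq_self volume h)
    (E ∩ {S | D z y S ∈ T}) {S | D z y S - h ∈ T} (hE.inter (hm hT))
    ((hm.sub_const h) hT) 1 ?_
  · rw [one_mul] at key
    have e1 : {S : Q → ℝ | pin y 0 S ∈ E ∧ D z y S ∈ T} =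
        {S | pin y 0 S ∈ E ∩ {S | D z y S ∈ T}} := by
      ext S
      constructor
      · rintro ⟨h1, h2⟩
        refine ⟨h1, ?_⟩
        show D z y (pin y 0 S) ∈ T
        rw [D_pin]
        exact h2
      · rintro ⟨h1, h2⟩
        refine ⟨h1, ?_⟩
        have h3 : D z y (pin y 0 S) ∈ T := h2
        rw [D_pin] at h3
        exact h3
    have e2 : {S : Q → ℝ | D z y S - h ∈ T} = {S | pin y 0 S ∈ {S | D z y S - h ∈ T}} := by
      ext S
      show D z y S - h ∈ T ↔ D z y (pin y 0 S) - h ∈ T
      rw [D_pin]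
    rw [e1, e2]
    exact ENNReal.toReal_mono (measure_ne_top _ _) key
  · rintro S ⟨hSE, hST⟩ hSy hSm
    obtain ⟨h1, h2⟩ := hS S hSE hSm
    refine ⟨?_, ?_, ?_, ?_⟩
    · intro a b hab
      simp only [Finset.mem_singleton]
      by_cases ha : a = z
      · have hb : b ≠ z := fun hb => by rw [ha, hb] at hab; exact lt_irrefl _ hab
        rw [if_pos ha, if_neg hb, ha]
        exact h1 b (ha ▸ hab)
      · rw [if_neg ha]
        by_cases hb : b = z
        · rw [if_pos hb, hb]
          exact h2 a (hb ▸ hab)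
        · rw [if_neg hb]
          exact hSm hab
    · show D z y (fun x => if x ∈ ({z} : Finset Q) then S x + h else S x) - h ∈ T
      have : D z y (fun x => if x ∈ ({z} : Finset Q) then S x + h else S x) - h = D z y S := by
        unfold D
        simp only [Finset.mem_singleton, if_true]
        rw [if_neg hzy.symm]
        ring
      rw [this]
      exact hST
    · simp only [Finset.mem_singleton]
      rw [if_neg hzt.symm, if_neg hzb.symm]
    · simp

/-- comparable elements are at mean distance at least one -/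
theorem ks_M_ge_one (x y : Q) (hxy : x < y) : 1 ≤ M (ks Q) y x := by
  have hI : IsKS (ks Q) := isKS_ks
  have h1 := hI.d_ge y x hxy.ne'
  refine h1.trans (le_of_eq ?_)
  unfold d M
  apply integral_congr_ae
  filter_upwards [ks_strictMono (Q := Q)] with S hS
  rw [abs_of_pos]
  unfold D
  linarith [hS hxy]

/-- constant of the successor lemma -/
noncomputable def cg (C : ℝ) : ℝ := 10 ^ 17 * C ^ 4

theorem cg_ge (C : ℝ) (hC : 1 ≤ C) : 10 ^ 17 * C ≤ cg C := by
  unfold cg
  have : C ≤ C ^ 4 := le_self_pow₀ hC (by norm_num)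
  linarith

/-- measure of a set which contains a complement -/
theorem real_ge_of_compl {μ : Measure (Q → ℝ)} [IsProbabilityMeasure μ] (A B : Set (Q → ℝ))
    (r : ℝ) (hAB : Aᶜ ⊆ B) (hB : μ.real B ≤ r) : 1 - r ≤ μ.real A := by
  have h1 : μ.real (A ∪ Aᶜ) ≤ μ.real A + μ.real Aᶜ := measureReal_union_le _ _
  rw [union_compl_self] at h1
  have h2 : μ.real Aᶜ ≤ μ.real B := measureReal_mono hAB
  have h3 : μ.real (univ : Set (Q → ℝ)) = 1 := by simp
  linarith

theorem Rigid.far_real (C : ℝ) (hr : Rigid (ks Q) C) (z : Q) (G : ℝ) (hG : 10 ^ 17 * C ^ 4 ≤ G) :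
    (ks Q).real {S | ∃ x, G < |M (ks Q) x z| ∧
      |M (ks Q) x z| / 2 ≤ |D x z S - M (ks Q) x z|} ≤ 1 / 4 := by
  refine le_trans ?_ (hr.far_sum z G hG)
  have e : {S : Q → ℝ | ∃ x, G < |M (ks Q) x z| ∧
      |M (ks Q) x z| / 2 ≤ |D x z S - M (ks Q) x z|} =
      ⋃ x, {S | G < |M (ks Q) x z| ∧ |M (ks Q) x z| / 2 ≤ |D x z S - M (ks Q) x z|} := by
    ext S
    simp only [mem_ofPred_eq, mem_iUnion]
  rw [e]
  exact measureReal_iUnion_fintype_le _

theorem exists_near_succ (C : ℝ) (hr : Rigid (ks Q) C)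
    (hgap : ∀ z : Q, (∀ y, M (ks Q) y z ≤ 0) ∨ ∃ y, 0 < M (ks Q) y z ∧ M (ks Q) y z ≤ C)
    (z : Q) (hzt : z ≠ ⊤) (hzb : z ≠ ⊥) : ∃ z', z < z' ∧ M (ks Q) z' z ≤ cg C := by
  by_contra hcon
  push Not at hcon
  have hC := hr.one_le
  have hG := cg_ge C hC
  set G := cg C with hGdef
  have hG0 : 0 < G := by linarith
  have hzt' : z < ⊤ := lt_top_iff_ne_top.2 hzt
  obtain ⟨y, hy0, hyC⟩ : ∃ y, 0 < M (ks Q) y z ∧ M (ks Q) y z ≤ C := by
    rcases hgap z with h | h
    · have := ks_M_ge_one z ⊤ hzt'
      have := h ⊤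
      linarith
    · exact h
  have hyz : z ≠ y := by
    rintro rfl
    rw [M_self] at hy0
    exact lt_irrefl _ hy0
  have hV : V (ks Q) z y ≤ 2 * C ^ 2 := by
    have h1 := hr.V_le z y
    rw [M_symm (ks Q) y z, abs_neg, abs_of_pos hy0] at h1
    nlinarith
  have hfar := hr.far_real C z G (le_refl _)
  -- the event
  have hE : MeasurableSet {S : Q → ℝ | ∀ b, z < b → G / 2 < D b z S} := by
    have : {S : Q → ℝ | ∀ b, z < b → G / 2 < D b z S} = ⋂ b, ⋂ (_ : z < b), {S | G / 2 < D b z S} := by
      ext S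
      simp only [mem_ofPred_eq, mem_iInter]
    rw [this]
    exact MeasurableSet.iInter fun b => MeasurableSet.iInter fun _ =>
      measurableSet_lt measurable_const (measurable_D b z)
  have key := ks_shift z y hyz hzt hzb (G / 4) {S : Q → ℝ | ∀ b, z < b → G / 2 < D b z S}
    (Ici (M (ks Q) z y - 3 * C)) hE measurableSet_Ici (by
      intro S hS hm
      refine ⟨fun b hb => ?_, fun a ha => ?_⟩
      · have h1 : G / 2 < S b - S z := hS b hb
        linarith
      · have := hm ha
        linarith)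
  have h1 : (ks Q).real {S | D z y S - G / 4 ∈ Ici (M (ks Q) z y - 3 * C)} ≤ 1 / 4 := by
    have hc := hr.isKS.cheb z y (G / 8) (by positivity)
    have h2 : (ks Q).real {S | D z y S - G / 4 ∈ Ici (M (ks Q) z y - 3 * C)} ≤
        (ks Q).real {S | G / 8 ≤ |D z y S - M (ks Q) z y|} := by
      refine measureReal_mono ?_ (measure_ne_top _ _)
      intro S hS
      have hS' : M (ks Q) z y - 3 * C ≤ D z y S - G / 4 := hS
      show G / 8 ≤ |D z y S - M (ks Q) z y|
      refine le_trans ?_ (le_abs_self _)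
      linarith
    refine h2.trans (hc.trans ?_)
    rw [div_le_iff₀ (by positivity)]
    nlinarith
  have h2 : 1 - (1 / 4 + 1 / 4) ≤
      (ks Q).real {S | pin y 0 S ∈ {S : Q → ℝ | ∀ b, z < b → G / 2 < D b z S} ∧
        D z y S ∈ Ici (M (ks Q) z y - 3 * C)} := by
    apply real_ge_of_compl _ ({S | ∃ x, G < |M (ks Q) x z| ∧
      |M (ks Q) x z| / 2 ≤ |D x z S - M (ks Q) x z|} ∪ {S | 3 * C ≤ |D z y S - M (ks Q) z y|})
    · intro S hS
      rw [mem_union]
      by_contra hn
      rw [not_or] at hn
      obtain ⟨hn1, hn2⟩ := hn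
      apply hS
      refine ⟨?_, ?_⟩
      · intro b hb
        rw [D_pin]
        by_contra hlt
        rw [not_lt] at hlt
        apply hn1
        have hM := hcon b hb
        refine ⟨b, ?_, ?_⟩
        · rw [abs_of_pos (by linarith)]
          exact hM
        · rw [abs_of_pos (by linarith), abs_sub_comm]
          refine le_trans ?_ (le_abs_self _)
          linarith
      · show M (ks Q) z y - 3 * C ≤ D z y S
        by_contra hlt
        rw [not_le] at hlt
        apply hn2
        show 3 * C ≤ |D z y S - M (ks Q) z y|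
        rw [abs_sub_comm]
        refine le_trans ?_ (le_abs_self _)
        linarith
    · refine (measureReal_union_le _ _).trans (add_le_add hfar ?_)
      refine (hr.isKS.cheb z y (3 * C) (by positivity)).trans ?_
      rw [div_le_iff₀ (by positivity)]
      nlinarith
  linarith

theorem exists_near_pred (C : ℝ) (hr : Rigid (ks Q) C)
    (hgap : ∀ z : Q, (∀ y, M (ks Q) y z ≤ 0) ∨ ∃ y, 0 < M (ks Q) y z ∧ M (ks Q) y z ≤ C)
    (z : Q) (hzt : z ≠ ⊤) (hzb : z ≠ ⊥) : ∃ z', z' < z ∧ M (ks Q) z z' ≤ cg C := by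
  classical
  by_contra hcon
  push Not at hcon
  have hC := hr.one_le
  have hG := cg_ge C hC
  set G := cg C with hGdef
  have hG0 : 0 < G := by linarith
  have hzb' : ⊥ < z := bot_lt_iff_ne_bot.2 hzb
  obtain ⟨y, hy0, hyC⟩ : ∃ y, 0 < M (ks Q) z y ∧ M (ks Q) z y ≤ C := by
    obtain ⟨w, hw, hmax⟩ := Finset.exists_max_image
      (Finset.univ.filter fun w : Q => 0 < M (ks Q) z w) (fun w => M (ks Q) w z)
      ⟨⊥, by
        rw [Finset.mem_filter]
        have := ks_M_ge_one ⊥ z hzb'
        exact ⟨Finset.mem_univ _, by linarith⟩⟩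
    rw [Finset.mem_filter] at hw
    refine ⟨w, hw.2, ?_⟩
    rcases hgap w with h | ⟨v, hv0, hvC⟩
    · have := h z
      linarith [hw.2]
    · have h1 := hr.isKS.M_add v w z
      have h2 := M_symm (ks Q) w z
      by_contra hlt
      rw [not_le] at hlt
      have h3 : 0 < M (ks Q) z v := by
        rw [M_symm (ks Q) v z]
        linarith
      have h4 := hmax v (by rw [Finset.mem_filter]; exact ⟨Finset.mem_univ _, h3⟩)
      linarith
  have hyz : z ≠ y := by
    rintro rfl
    rw [M_self] at hy0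
    exact lt_irrefl _ hy0
  have hV : V (ks Q) z y ≤ 2 * C ^ 2 := by
    have h1 := hr.V_le z y
    rw [abs_of_pos hy0] at h1
    nlinarith
  have hfar := hr.far_real C z G (le_refl _)
  -- the event
  have hE : MeasurableSet {S : Q → ℝ | ∀ a, a < z → G / 2 < D z a S} := by
    have : {S : Q → ℝ | ∀ a, a < z → G / 2 < D z a S} = ⋂ b, ⋂ (_ : b < z), {S | G / 2 < D z b S} := by
      ext S
      simp only [mem_ofPred_eq, mem_iInter]
    rw [this]
    exact MeasurableSet.iInter fun b => MeasurableSet.iInter fun _ =>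
      measurableSet_lt measurable_const (measurable_D z b)
  have key := ks_shift z y hyz hzt hzb (-(G / 4)) {S : Q → ℝ | ∀ a, a < z → G / 2 < D z a S}
    (Iic (M (ks Q) z y + 3 * C)) hE measurableSet_Iic (by
      intro S hS hm
      refine ⟨fun b hb => ?_, fun a ha => ?_⟩
      · have := hm hb
        linarith
      · have h1 : G / 2 < S z - S a := hS a ha
        linarith)
  have h1 : (ks Q).real {S | D z y S - -(G / 4) ∈ Iic (M (ks Q) z y + 3 * C)} ≤ 1 / 4 := by
    have hc := hr.isKS.cheb z y (G / 8) (by positivity)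
    have h2 : (ks Q).real {S | D z y S - -(G / 4) ∈ Iic (M (ks Q) z y + 3 * C)} ≤
        (ks Q).real {S | G / 8 ≤ |D z y S - M (ks Q) z y|} := by
      refine measureReal_mono ?_ (measure_ne_top _ _)
      intro S hS
      have hS' : D z y S - -(G / 4) ≤ M (ks Q) z y + 3 * C := hS
      show G / 8 ≤ |D z y S - M (ks Q) z y|
      rw [abs_sub_comm]
      refine le_trans ?_ (le_abs_self _)
      linarith
    refine h2.trans (hc.trans ?_)
    rw [div_le_iff₀ (by positivity)]
    nlinarith
  have h2 : 1 - (1 / 4 + 1 / 4) ≤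
      (ks Q).real {S | pin y 0 S ∈ {S : Q → ℝ | ∀ a, a < z → G / 2 < D z a S} ∧
        D z y S ∈ Iic (M (ks Q) z y + 3 * C)} := by
    apply real_ge_of_compl _ ({S | ∃ x, G < |M (ks Q) x z| ∧
      |M (ks Q) x z| / 2 ≤ |D x z S - M (ks Q) x z|} ∪ {S | 3 * C ≤ |D z y S - M (ks Q) z y|})
    · intro S hS
      rw [mem_union]
      by_contra hn
      rw [not_or] at hn
      obtain ⟨hn1, hn2⟩ := hn
      apply hS
      refine ⟨?_, ?_⟩
      · intro b hb
        rw [D_pin]
        by_contra hlt
        rw [not_lt] at hlt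
        apply hn1
        have hM := hcon b hb
        have hM2 := M_symm (ks Q) z b
        have hD : D b z S = - D z b S := by
          unfold D
          ring
        refine ⟨b, ?_, ?_⟩
        · rw [hM2, abs_neg, abs_of_pos (by linarith)]
          exact hM
        · rw [hM2, abs_neg, abs_of_pos (by linarith), hD]
          refine le_trans ?_ (le_abs_self _)
          linarith
      · show D z y S ≤ M (ks Q) z y + 3 * C
        by_contra hlt
        rw [not_le] at hlt
        apply hn2
        show 3 * C ≤ |D z y S - M (ks Q) z y|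
        refine le_trans ?_ (le_abs_self _)
        linarith
    · refine (measureReal_union_le _ _).trans (add_le_add hfar ?_)
      refine (hr.isKS.cheb z y (3 * C) (by positivity)).trans ?_
      rw [div_le_iff₀ (by positivity)]
      nlinarith
  linarith

end KS
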